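import Mathlib
import Pool.Agent.H60W.TwR
import Pool.Agent.H60W.Hyp
import Pool.Agent.H60S.Pol
import Pool.Agent.H60S.Rat

/-!
# Entire curves in general hypersurfaces and linear differential equations over given functions

Let `d ≥ 2 n + 2`, and let `a_1, ..., a_m` be arbitrary meromorphic functions in the plane. We
consider entire curves which are given by iterated linear differential equations over these
functions and over rational functions `b_1, ..., b_m'` of degree at most `δ`, with the complexity
`(s, r, e)`: there are vectors `y_1, ..., y_s` of length `r` of meromorphic functions such that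
`y_l' = M_l y_l`, where the entries of `M_l` are polynomials of degree at most `e` with complex
coefficients in the `a_i`, `b_i` and in the entries of `y_1, ..., y_{l-1}`, and the homogeneous
coordinates of the curve are, up to a common factor, such polynomials in the `a_i`, `b_i` and in the
entries of `y_1, ..., y_s`.

There is a constant `C`, depending only on `n`, `d`, `m`, `m'`, `δ`, `s`, `r`, `e`, such that for a
general hypersurface `X` of degree `d` in the projective space of dimension `n + 1` all nonconstant
entire curves `f` of this kind in `X` satisfy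

`T_f(ρ) + log ρ ≤ C (T(ρ, a_1) + ... + T(ρ, a_m))`

outside a set of radii of finite measure. So an entire curve in `X` cannot be obtained from
functions which grow more slowly by solving linear differential equations. For `m = 0` there are no
such curves.

Proof. If this fails for all `C` there is a sequence of counterexamples in hypersurfaces without
punctured rational curves of degree at most `C`. The functions `a_i`, `b_i` of the sequence are small
compared with the curves. In the ultraproduct one gets a point of the limit hypersurface over an
iterated Picard-Vessiot extension of the field of the small sequences which is not algebraic over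
this field. So the limit contains a punctured rational curve of some degree `B`, and then almost all
hypersurfaces of the sequence contain one of degree `B`, a contradiction. General hypersurfaces of
degree `d` contain no punctured rational curves of bounded degree (Clemens, Ein, Voisin), and curves
of logarithmic growth are rational; this removes the logarithmic terms.
-/

set_option autoImplicit false

namespace Pool.Agent.Results.MP_b509a1_ag.EquationsOverFunctions

open MvPolynomial MeasureTheory Filter
open Pool.Agent.H60W (Tower InTower IsRat)
open ValueDistribution (characteristic)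

/-- The characteristic function of the curve with the homogeneous coordinates `g`, up to a constant:
the mean of the logarithm of the maximum norm over the circle of the radius `r`. -/
noncomputable def T {N : ℕ} (g : ℂ → Fin N → ℂ) (r : ℝ) : ℝ :=
  Real.circleAverage (fun z => Real.log ‖g z‖) 0 r

/-- `S r ≤ X r` for all `r ≥ 1` outside a set of finite measure. -/
def Outside (S X : ℝ → ℝ) : Prop :=
  ∃ E : Set ℝ, volume E < ⊤ ∧ ∀ r, 1 ≤ r → r ∉ E → S r ≤ X r

/-- `f` is a nonconstant entire curve in the hypersurface `F = 0` of the projective space. -/
structure CurveIn {N : ℕ} (F : MvPolynomial (Fin N) ℂ) (f : ℂ → Fin N → ℂ) : Prop where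
  hol : Differentiable ℂ f
  ne : ∀ z, f z ≠ 0
  on : ∀ z, eval (f z) F = 0
  nonconst : ¬ ∀ z, ∃ c : ℂ, f z = c • f 0

/-- **Linear differential equations over given functions.** Let `d ≥ 2 n + 2`, and let `m`, `m'`, `δ`
and `(s, r, e)` be given. There are `C` and a polynomial `Φ` in the coefficients of the forms of degree
`d` in `n + 2` variables, which does not vanish at all forms of degree `d`, such that for all forms
`F` of degree `d` at which `Φ` does not vanish and all nonconstant entire curves `f` in the
hypersurface `F = 0` whose homogeneous coordinates are, up to a common factor `u`, given by iterated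
linear differential equations of complexity `(s, r, e)` over meromorphic functions `a_1, ..., a_m` and
rational functions `b_1, ..., b_m'` of degree at most `δ`: one has `m > 0`, and
`T_f(ρ) + log ρ ≤ C (T(ρ, a_1) + ... + T(ρ, a_m))` outside a set of finite measure. -/
theorem result (n d : ℕ) (hd : 2 * n + 2 ≤ d) (m m' δ s r e : ℕ) :
    ∃ (Φ : MvPolynomial (Fin (n + 2) →₀ ℕ) ℂ) (C : ℝ),
      (∃ F₀ : MvPolynomial (Fin (n + 2)) ℂ, F₀.IsHomogeneous d ∧
        eval (fun α => coeff α F₀) Φ ≠ 0) ∧
      ∀ F : MvPolynomial (Fin (n + 2)) ℂ, F.IsHomogeneous d → eval (fun α => coeff α F) Φ ≠ 0 →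
        ∀ f : ℂ → Fin (n + 2) → ℂ, CurveIn F f →
        ∀ (a : Fin m → ℂ → ℂ) (b : Fin m' → ℂ → ℂ) (y : Fin s → Fin r → ℂ → ℂ),
          (∀ i, IsRat δ (b i)) → Tower e (Fin.append a b) y →
          ∀ u : ℂ → ℂ, Meromorphic u → (∀ᶠ z in codiscrete ℂ, u z ≠ 0) →
            (∀ j, InTower e (Fin.append a b) y fun z => u z * f z j) →
            0 < m ∧ Outside (fun ρ => T f ρ + Real.log ρ)
              fun ρ => C * ∑ i, characteristic (a i) ⊤ ρ := by
  obtain ⟨B, C, hC, h⟩ := H60W.tower_dich_rat (Pool.Agent.H60S.t_RAT Pool.Agent.H60S.t_POL)
    (n + 1) 1 (fun _ => d) 0 m m' δ s r e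
  obtain ⟨Φ, hΦ, hΦ2⟩ := Pool.Agent.V1153.GH.gen_hyp (n := n + 1) (d := d) (by omega) B
  refine ⟨Φ, C, hΦ, fun F hF hFΦ f hf a b y hb ht u hum hu0 hu => ?_⟩
  have hfd : ∀ j, Differentiable ℂ fun z => f z j := fun j => differentiable_pi.1 hf.hol j
  have hf0 : ∀ z, ∃ j, f z j ≠ 0 := by
    intro z
    by_contra hcon
    push Not at hcon
    exact hf.ne z (funext hcon)
  have hnc : ∃ s t j k, f s j * f t k ≠ f s k * f t j := by
    by_contra hcon
    apply hf.nonconst
    intro z
    apply Pool.Agent.V1153.GH.prop_of hf.ne
    rintro ⟨s, t, j, k, hne⟩
    exact hcon ⟨s, t, j, k, hne⟩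
  obtain ⟨hm, E, hE, hbd⟩ := h (fun _ => F) 1 (fun _ => hF) (isHomogeneous_one _ _)
    (fun j z => f z j) hfd hf0 (fun _ => hf.on)
    (fun z => by rw [map_one]; exact one_ne_zero) hnc a b y hb ht
    ⟨fun _ => ⟨u, hum, hu0, hu⟩, fun h0 => absurd h0 (lt_irrefl 0)⟩
    ((Eventually.of_forall fun z p hp => by
      refine hΦ2 F hF hFΦ p ⟨hp.1, fun G hG _ => ?_, hp.2.2.1, V1153.UG.nc_of_wr hp.2.2.2.1⟩
      obtain ⟨G', rfl⟩ := Ideal.mem_span_singleton.1 hG
      rw [map_mul, hp.2.1 0, zero_mul]).frequently)
  exact ⟨hm, E, hE, hbd⟩

end Pool.Agent.Results.MP_b509a1_ag.EquationsOverFunctions
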