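import Mathlib
import Pool.Agent.H60K.Main

/-!
# Highly ramified entire curves in general hypersurfaces

Let `d ≥ 2 n + 2`. For all `m` and `e` a general hypersurface of degree `d` in the projective space of
dimension `n + 1` contains no nonconstant entire curve whose homogeneous coordinates are, up to a
common factor, polynomials of degree at most `e` in each of the variables `z, k_1(z) ^ N, ..., k_m(z) ^ N`,
where the `k_i` are arbitrary entire functions and `N` is large. (Entire functions without zeros are
`N`-th powers for all `N`.) In particular there is no nonconstant entire curve which meets `n + 2`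
hyperplanes in general position, with at most `e` exceptions for each of them, only with multiplicities
divisible by `N`, or in at most `e` points. The hyperplanes may depend on the curve, and the Zariski
open set of hypersurfaces does not depend on `N`.

Proof. Pulling the curve back by the exponential function we may assume that the variable `z` does not
occur. The equation of the hypersurface gives a polynomial relation between the `k_i ^ N`. By the
theorem on the linear independence of `N`-th powers of pairwise nonproportional entire functions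
(Nevanlinna, Cartan) it is a consequence of the multiplicative relations between the `k_i ^ N`.
Therefore it holds on the orbit `k(z₀) ^ N t ^ b`, `t ≠ 0`, for a suitable integral vector `b`, and `b`
can be chosen such that the curve `P(k(z₀) ^ N t ^ b)` is not constant, and bounded in terms of
`m`, `d` and `e` only. But there are no rational curves of bounded degree in a general hypersurface.
-/

set_option autoImplicit false

namespace Pool.Agent.Results.MP_b509a1_ag.RamifiedCurves

open MvPolynomial

/-- On some nonempty open set the homogeneous coordinates `g j`, multiplied by a common factor `u`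
without zeros, are polynomials, of degree at most `e` in each variable, in `z` and the `N`-th powers of
`m` entire functions `k i`. -/
def InPowers {n : ℕ} (m e N : ℕ) (g : ℂ → Fin (n + 2) → ℂ) : Prop :=
  ∃ (U : Set ℂ) (u : ℂ → ℂ) (k : Fin m → ℂ → ℂ)
    (P : Fin (n + 2) → MvPolynomial (Fin (m + 1)) ℂ),
    IsOpen U ∧ U.Nonempty ∧ (∀ z ∈ U, u z ≠ 0) ∧ (∀ i, Differentiable ℂ (k i)) ∧
      (∀ j i, (P j).degreeOf i ≤ e) ∧
      ∀ z ∈ U, ∀ j, u z * g z j
        = eval (Fin.cons z fun i => k i z ^ N : Fin (m + 1) → ℂ) (P j)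

/-- There are `n + 2` linearly independent linear forms (the rows of `A`) whose values at `g` are
products of a polynomial of degree at most `e` and the `N`-th power of an entire function. -/
def Ramified {n : ℕ} (e N : ℕ) (g : ℂ → Fin (n + 2) → ℂ) : Prop :=
  ∃ (A : Matrix (Fin (n + 2)) (Fin (n + 2)) ℂ) (p : Fin (n + 2) → Polynomial ℂ)
    (k : Fin (n + 2) → ℂ → ℂ), IsUnit A.det ∧ (∀ i, (p i).natDegree ≤ e) ∧
      (∀ i, Differentiable ℂ (k i)) ∧ ∀ z i, ∑ j, A i j * g z j = (p i).eval z * k i z ^ N

theorem degreeOf_aeval {σ : Type} {e : ℕ} {p : Polynomial ℂ} (hp : p.natDegree ≤ e) (x i : σ) :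
    (Polynomial.aeval (X x : MvPolynomial σ ℂ) p).degreeOf i ≤ e := by
  classical
  rw [Polynomial.aeval_eq_sum_range]
  refine (degreeOf_sum_le _ _ _).trans (Finset.sup_le fun k hk => ?_)
  rw [MvPolynomial.smul_eq_C_mul]
  refine (degreeOf_C_mul_le _ _ _).trans ((degreeOf_pow_le _ _ _).trans ?_)
  have h1 : degreeOf i (X x : MvPolynomial σ ℂ) ≤ 1 := by
    rw [degreeOf_X]
    split_ifs <;> omega
  have h2 := Finset.mem_range.1 hk
  calc k * degreeOf i (X x : MvPolynomial σ ℂ) ≤ k * 1 := Nat.mul_le_mul_left _ h1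
    _ ≤ e := by omega

/-- Ramified curves are given by polynomials in powers. -/
theorem Ramified.inPowers {n e N : ℕ} {g : ℂ → Fin (n + 2) → ℂ} (h : Ramified e N g) :
    InPowers (n + 2) (e + 1) N g := by
  classical
  obtain ⟨A, p, k, hA, hp, hk, hg⟩ := h
  refine ⟨Set.univ, fun _ => 1, k, fun j => ∑ i, C (A⁻¹ j i) *
    (Polynomial.aeval (X 0 : MvPolynomial (Fin (n + 2 + 1)) ℂ) (p i) * X i.succ), isOpen_univ,
    Set.univ_nonempty, fun _ _ => one_ne_zero, hk, fun j l => ?_, fun z _ j => ?_⟩
  · refine (degreeOf_sum_le _ _ _).trans (Finset.sup_le fun i _ => ?_)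
    refine (degreeOf_C_mul_le _ _ _).trans ((degreeOf_mul_le _ _ _).trans ?_)
    refine add_le_add (degreeOf_aeval (hp i) _ _) ?_
    rw [degreeOf_X]
    split_ifs <;> omega
  · rw [one_mul, map_sum]
    have h1 : ∀ i, eval (Fin.cons z fun i => k i z ^ N : Fin (n + 2 + 1) → ℂ)
        (C (A⁻¹ j i) * (Polynomial.aeval (X 0 : MvPolynomial (Fin (n + 2 + 1)) ℂ) (p i) *
          X i.succ)) = A⁻¹ j i * ∑ l, A i l * g z l := by
      intro i
      rw [map_mul, map_mul, eval_C, eval_X, Fin.cons_succ, hg z i]
      congr 2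
      have h2 := Polynomial.hom_eval₂ (p i) (algebraMap ℂ (MvPolynomial (Fin (n + 2 + 1)) ℂ))
        (eval (Fin.cons z fun i => k i z ^ N : Fin (n + 2 + 1) → ℂ)) (X 0)
      rw [Polynomial.aeval_def, h2, eval_X, Fin.cons_zero]
      have h3 : (eval (Fin.cons z fun i => k i z ^ N : Fin (n + 2 + 1) → ℂ)).comp
          (algebraMap ℂ (MvPolynomial (Fin (n + 2 + 1)) ℂ)) = RingHom.id ℂ := by
        ext x
        · simp [MvPolynomial.algebraMap_eq]
        
      rw [h3, Polynomial.eval₂_id]
    rw [Finset.sum_congr rfl fun i _ => h1 i]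
    have h2 : ∑ i, A⁻¹ j i * ∑ l, A i l * g z l = (A⁻¹.mulVec (A.mulVec (g z))) j := rfl
    rw [h2, Matrix.mulVec_mulVec, Matrix.nonsing_inv_mul _ hA, Matrix.one_mulVec]

/-- **Highly ramified curves in general hypersurfaces.** Let `d ≥ 2 n + 2`, and let `m`, `e` be given.
There is a polynomial `Φ` in the coefficients of the forms of degree `d` in `n + 2` variables, which does
not vanish at all forms of degree `d`, such that for all forms `F` of degree `d` at which `Φ` does not
vanish and all entire curves `g` in the hypersurface `F = 0`: if `g` is given by polynomials of degree at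
most `e` in `z` and the `N`-th powers of `m` entire functions, `N ≥ (d e + 1) ^ (2 m + 2)`, then `g` is
constant; if the values at `g` of `n + 2` linearly independent linear forms are products of a polynomial
of degree at most `e` and an `N`-th power, `N ≥ (d (e + 1) + 1) ^ (2 n + 6)`, then `g` is constant. -/
theorem result (n d : ℕ) (hd : 2 * n + 2 ≤ d) (m e : ℕ) :
    ∃ Φ : MvPolynomial (Fin (n + 2) →₀ ℕ) ℂ,
      (∃ F₀ : MvPolynomial (Fin (n + 2)) ℂ, F₀.IsHomogeneous d ∧
        eval (fun α => coeff α F₀) Φ ≠ 0) ∧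
      ∀ F : MvPolynomial (Fin (n + 2)) ℂ, F.IsHomogeneous d → eval (fun α => coeff α F) Φ ≠ 0 →
        ∀ g : ℂ → Fin (n + 2) → ℂ, Differentiable ℂ g → (∀ z, g z ≠ 0) →
          (∀ z, eval (g z) F = 0) → ∀ N : ℕ,
          ((d * e + 1) ^ (2 * m + 2) ≤ N ∧ InPowers m e N g ∨
            (d * (e + 1) + 1) ^ (2 * n + 6) ≤ N ∧ Ramified e N g) →
          ∀ z, ∃ c : ℂ, g z = c • g 0 := by
  obtain ⟨B, hB⟩ := Pool.Agent.H60K.bounded_vectors (m + 1) (d * e)
  obtain ⟨B', hB'⟩ := Pool.Agent.H60K.bounded_vectors (n + 2 + 1) (d * (e + 1))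
  obtain ⟨Φ, h1, h2⟩ := Pool.Agent.V1153.GH.gen_hyp (n := n + 1) (d := d) (by omega)
    (max (2 * ((m + 1) * e * B)) (2 * ((n + 2 + 1) * (e + 1) * B')))
  refine ⟨Φ, h1, fun F hF hFΦ g hg h0 hm N hN => ?_⟩
  rcases hN with ⟨hN, hc⟩ | ⟨hN, hc⟩
  · obtain ⟨U, u, k, P, hU, hne, hu, hk, hP, hgP⟩ := hc
    refine Pool.Agent.H60K.const_main hB hF (fun T hT => h2 F hF hFΦ T
      ⟨fun j => (hT.deg j).trans (le_max_left _ _), hT.mem, hT.off, hT.nc⟩) ?_ g hg h0 hm U hU hne u
      hu k hk P hP hgP
    rw [← pow_mul]
    exact le_trans (le_of_eq (congrArg _ (by ring))) hN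
  · obtain ⟨U, u, k, P, hU, hne, hu, hk, hP, hgP⟩ := hc.inPowers
    refine Pool.Agent.H60K.const_main hB' hF (fun T hT => h2 F hF hFΦ T
      ⟨fun j => (hT.deg j).trans (le_max_right _ _), hT.mem, hT.off, hT.nc⟩) ?_ g hg h0 hm U hU hne u
      hu k hk P hP hgP
    rw [← pow_mul]
    exact le_trans (le_of_eq (congrArg _ (by ring))) hN

end Pool.Agent.Results.MP_b509a1_ag.RamifiedCurves
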