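import Mathlib
import Pool.Agent.H60K.Sfin
import Pool.Agent.H60S.Vec
import Pool.Agent.H60S.IND
import Pool.Agent.H60S.GMC
import Pool.Agent.H60S.Pol
import Pool.Agent.H60S.Rat

/-!
# A second main theorem for general hypersurfaces

Let `d ≥ 2 n + 2`. There is a constant `C` such that for a general hypersurface `X` of degree `d` in
the projective space of dimension `n + 1`, all nonconstant entire curves `g` in `X` and all `n + 2`
linearly independent linear forms `L_i` (which may depend on the curve)

`T_g(r) ≤ C ∑ N₁(L_i(g), r)`,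

outside a set of radii of finite measure, where `N₁` counts each zero once, and the sum is over the
`i` for which `L_i` does not vanish on the curve. In particular, if `M` is large, for each
`e` (with `M` and the Zariski open set of hypersurfaces depending on `e`) more than `e` of the points
at which `g` meets the hyperplanes have multiplicity less than `M`. More generally the hyperplanes may
move slowly: if `g` is given by forms of degree `e` in entire functions `k_0, ..., k_m`, with meromorphic
coefficients `a`, then `T_g(r) ≤ C (∑ N₁(k_i, r) + ∑ T(r, a) + log (1 + ∑ T(r, k_i / k_0)))`.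

Proof. If the last inequality fails for all `C` there is a sequence of curves; consider the
field of the sequences of meromorphic functions modulo an ultrafilter, and the subfield `K` of the
sequences with characteristic `o(T_g)`. The logarithmic derivatives of the `k_i / k_0` are in `K`, by the
lemma on the logarithmic derivative. The equation of the hypersurface gives a linear relation between
the monomials in the `k_i` over `K`; by Borel's argument it splits into relations between monomials
whose quotients are in `K`. So for generic `z` the curve `t ↦ P(k(z) t ^ b)` is in the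
hypersurface, for all `b` orthogonal to the exponents of the monomials in `K`; `b` can be chosen
generic and bounded. Since general hypersurfaces contain no rational curves of bounded
degree these curves are constant, and this implies that the quotients of the coordinates of `g` are
in `K`, a contradiction. Curves of logarithmic growth are rational of bounded degree, which removes
the term `log r`.
-/

set_option autoImplicit false

namespace Pool.Agent.Results.MP_b509a1_ag.SecondMainTheorem

open MvPolynomial MeasureTheory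

/-- The characteristic function of the curve with the homogeneous coordinates `g`, up to a constant:
the mean of the logarithm of the maximum norm over the circle of the radius `r`. -/
noncomputable def T {N : ℕ} (g : ℂ → Fin N → ℂ) (r : ℝ) : ℝ :=
  Real.circleAverage (fun z => Real.log ‖g z‖) 0 r

/-- The counting function of the zeros of `h`; every zero is counted once. -/
noncomputable def N₁ (h : ℂ → ℂ) (r : ℝ) : ℝ :=
  ∑ᶠ z ∈ {z : ℂ | h z = 0 ∧ ‖z‖ ≤ r}, if z = 0 then Real.log r else Real.log (r / ‖z‖)

/-- `S r ≤ X r` for all `r ≥ 1` outside a set of finite measure. -/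
def Outside (S X : ℝ → ℝ) : Prop :=
  ∃ E : Set ℝ, volume E < ⊤ ∧ ∀ r, 1 ≤ r → r ∉ E → S r ≤ X r

/-- `g` is a nonconstant entire curve in the hypersurface `F = 0` of the projective space. -/
structure CurveIn {N : ℕ} (F : MvPolynomial (Fin N) ℂ) (g : ℂ → Fin N → ℂ) : Prop where
  hol : Differentiable ℂ g
  ne : ∀ z, g z ≠ 0
  on : ∀ z, eval (g z) F = 0
  nonconst : ¬ ∀ z, ∃ c : ℂ, g z = c • g 0

/-- Up to a common factor the coordinates of `g` are forms of degree `e` in the entire
functions `k i`, which do not vanish identically, with the meromorphic coefficients `a j α`. -/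
structure Forms {N m : ℕ} (e : ℕ) (k : Fin (m + 1) → ℂ → ℂ)
    (a : Fin N → (Fin (m + 1) →₀ ℕ) → ℂ → ℂ) (g : ℂ → Fin N → ℂ) : Prop where
  ent : ∀ i, Differentiable ℂ (k i)
  ne : ∀ i, ∃ z, k i z ≠ 0
  mero : ∀ j, ∀ α ∈ Finset.univ.finsuppAntidiag e, Meromorphic (a j α)
  eq : ∀ᶠ z in Filter.codiscrete ℂ, ∃ u : ℂ, u ≠ 0 ∧ ∀ j,
    ∑ α ∈ Finset.univ.finsuppAntidiag e, a j α z * ∏ i, k i z ^ α i = u * g z j

theorem N₁_eq {h : ℂ → ℂ} {r : ℝ} (hr : 1 ≤ r) (hd : Differentiable ℂ h) (hn : ∃ z, h z ≠ 0) :
    N₁ h r = N131.SR.Nb h r := by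
  classical
  have hfin := N131.SR.zeros_finite hd hn r
  have hF : ∀ z, z ∈ hfin.toFinset ↔ h z = 0 ∧ ‖z‖ ≤ r := fun z => by
    rw [Set.Finite.mem_toFinset]
    rfl
  rw [N131.SR.Nb_eq r hfin.toFinset hF]
  unfold N₁
  rw [finsum_mem_eq_finite_toFinset_sum _ hfin]
  have h1 : ∀ z ∈ hfin.toFinset, (if z = 0 then Real.log r else Real.log (r / ‖z‖)) =
      Real.log (r * ‖z‖⁻¹) + if z = 0 then Real.log r else 0 := by
    intro z _
    by_cases h : z = 0
    · simp [h]
    · simp [h, div_eq_mul_inv]
  rw [Finset.sum_congr rfl h1, Finset.sum_add_distrib, Finset.sum_ite_eq']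
  congr 1
  by_cases h0 : h 0 = 0
  · rw [if_pos ((hF 0).2 ⟨h0, by rw [norm_zero]; linarith⟩),
      Set.indicator_of_mem (show (0 : ℂ) ∈ {z : ℂ | h z = 0} from h0)]
    simp
  · rw [if_neg fun h2 => h0 ((hF 0).1 h2).1,
      Set.indicator_of_notMem (show (0 : ℂ) ∉ {z : ℂ | h z = 0} from h0)]
    simp

open Classical in
/-- **A second main theorem for general hypersurfaces.** Let `d ≥ 2 n + 2`, and let `m`, `e` be given.
There are `C`, `M` and a polynomial `Φ` in the coefficients of the forms of degree `d` in `n + 2`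
variables, which does not vanish at all forms of degree `d`, such that for all forms `F` of degree `d` at
which `Φ` does not vanish and all nonconstant entire curves `g` in the hypersurface `F = 0`:

(1) for all `n + 2` linearly independent linear forms (the rows of `A`) the inequality
`T_g(r) ≤ C ∑ N₁(L_i(g), r)` holds outside a set of finite measure, with the sum over the `i` such
that `L_i(g)` is not identically zero;

(2) for all such linear forms and all sets `S` of at most `e` points some `L_i(g)` which is not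
identically zero has a zero outside `S` of multiplicity less than `M`;

(3) if `g` is given by forms of degree `e` in `k_0, ..., k_m` with coefficients `a`, then
`T_g(r) ≤ C (∑ N₁(k_i, r) + ∑ T(r, a) + log (1 + ∑ T(r, k_i / k_0)))` outside a set of finite
measure. -/
theorem result (n d : ℕ) (hd : 2 * n + 2 ≤ d) (m e : ℕ) :
    ∃ (Φ : MvPolynomial (Fin (n + 2) →₀ ℕ) ℂ) (C : ℝ) (M : ℕ),
      (∃ F₀ : MvPolynomial (Fin (n + 2)) ℂ, F₀.IsHomogeneous d ∧
        eval (fun α => coeff α F₀) Φ ≠ 0) ∧
      ∀ F : MvPolynomial (Fin (n + 2)) ℂ, F.IsHomogeneous d → eval (fun α => coeff α F) Φ ≠ 0 →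
        ∀ g : ℂ → Fin (n + 2) → ℂ, CurveIn F g →
          (∀ A : Matrix (Fin (n + 2)) (Fin (n + 2)) ℂ, IsUnit A.det →
            Outside (T g) fun r => C * ∑ i with ∃ z, ∑ j, A i j * g z j ≠ 0,
              N₁ (fun z => ∑ j, A i j * g z j) r) ∧
          (∀ A : Matrix (Fin (n + 2)) (Fin (n + 2)) ℂ, IsUnit A.det →
            ∀ S : Finset ℂ, S.card ≤ e → ∃ i, (∃ z, ∑ j, A i j * g z j ≠ 0) ∧
              ∃ z, z ∉ S ∧ ∑ j, A i j * g z j = 0 ∧
                analyticOrderAt (fun z => ∑ j, A i j * g z j) z < M) ∧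
          ∀ (k : Fin (m + 1) → ℂ → ℂ) (a : Fin (n + 2) → (Fin (m + 1) →₀ ℕ) → ℂ → ℂ),
            Forms e k a g → Outside (T g) fun r => C * (∑ i, N₁ (k i) r +
              ∑ j, ∑ α ∈ Finset.univ.finsuppAntidiag e, ValueDistribution.characteristic (a j α) ⊤ r +
              Real.log (1 + ∑ i, ValueDistribution.characteristic (fun z => k i z / k 0 z) ⊤ r)) := by
  have hRAT := Pool.Agent.H60S.t_RAT Pool.Agent.H60S.t_POL
  obtain ⟨B₁, C₁, hC₁, h1⟩ := Pool.Agent.H60K.smt Pool.Agent.H60S.t_VEC Pool.Agent.H60S.t_IND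
    Pool.Agent.H60S.t_GMC hRAT (n + 1) d
  obtain ⟨B₂, M, h2⟩ := Pool.Agent.H60K.ram_const' Pool.Agent.H60S.t_VEC Pool.Agent.H60S.t_IND
    Pool.Agent.H60S.t_GMC hRAT (n + 1) d e
  obtain ⟨B₃, C₃, hC₃, h3⟩ := Pool.Agent.H60K.gen_bound Pool.Agent.H60S.t_VEC
    Pool.Agent.H60S.t_IND Pool.Agent.H60S.t_GMC hRAT (n + 1) m d e
  obtain ⟨Φ, hΦ, hΦ2⟩ := Pool.Agent.V1153.GH.gen_hyp (n := n + 1) (d := d) (by omega)
    (max B₁ (max B₂ B₃))
  refine ⟨Φ, max C₁ C₃, M, hΦ, fun F hF hFΦ g hg => ?_⟩
  have hno : ∀ B, B ≤ max B₁ (max B₂ B₃) → ∀ P, ¬ V1153.UG.GmBdd (Ideal.span {F}) 1 B P :=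
    fun B hB P hP => hΦ2 F hF hFΦ P ⟨fun j => (hP.deg j).trans hB, hP.mem, hP.off, hP.nc⟩
  have hgd : ∀ j, Differentiable ℂ fun z => g z j := fun j => differentiable_pi.1 hg.hol j
  have hg0 : ∀ z, ∃ j, g z j ≠ 0 := by
    intro z
    by_contra hcon
    push Not at hcon
    exact hg.ne z (funext hcon)
  have hnc : ∃ s t j k, g s j * g t k ≠ g s k * g t j := by
    by_contra hcon
    apply hg.nonconst
    intro z
    apply Pool.Agent.V1153.GH.prop_of hg.ne
    rintro ⟨s, t, j, k, hne⟩
    exact hcon ⟨s, t, j, k, hne⟩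
  refine ⟨fun A hA => ?_, fun A hA S hS => ?_, fun k a hka => ?_⟩
  · obtain ⟨E, hE, hb⟩ := h1 F hF (hno B₁ (le_max_left _ _)) (fun j z => g z j) hgd hg0 hg.on hnc
      A hA (Finset.univ.filter fun i => ∃ z, ∑ j, A i j * g z j ≠ 0) (fun i => by simp)
    refine ⟨E, hE, fun r hr hrE => ?_⟩
    have h4 := hb r hr hrE
    have h5 : ∑ i with ∃ z, ∑ j, A i j * g z j ≠ 0, N₁ (fun z => ∑ j, A i j * g z j) r =
        ∑ i with ∃ z, ∑ j, A i j * g z j ≠ 0, N131.SR.Nb (fun z => ∑ j, A i j * g z j) r := by
      refine Finset.sum_congr rfl fun i hi => ?_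
      exact N₁_eq hr (Differentiable.fun_sum fun j _ => (hgd j).const_mul _)
        (Finset.mem_filter.1 hi).2
    beta_reduce
    rw [h5]
    refine le_trans h4 (mul_le_mul_of_nonneg_right (le_max_left _ _)
      (Finset.sum_nonneg fun i _ => N131.SR.Nb_nonneg hr))
  · by_contra hcon
    push Not at hcon
    obtain ⟨s, t, j, k, hne⟩ := hnc
    exact hne (h2 F hF (hno B₂ ((le_max_left _ _).trans (le_max_right _ _))) (fun j z => g z j) hgd
      hg0 hg.on A hA S hS (fun i hi z hz h0 => hcon i hi z hz h0) s t j k)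
  · let c : H60K.Dat (n + 1) m d e
        (fun F => ∀ P, ¬ V1153.UG.GmBdd (Ideal.span {F}) 1 B₃ P) :=
      { F := F
        hF := hF
        good := hno B₃ ((le_max_right _ _).trans (le_max_right _ _))
        g := fun j z => g z j
        hg := hgd
        g0 := hg0
        gF := hg.on
        k := k
        hk := hka.ent
        k0 := hka.ne
        a := a
        ha := hka.mero
        hu := hka.eq }
    obtain ⟨E, hE, hb⟩ := h3 c hnc
    refine ⟨E, hE, fun r hr hrE => ?_⟩
    have h4 := hb r hr hrE
    have h5 : ∑ i, N₁ (k i) r = ∑ i, N131.SR.Nb (k i) r :=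
      Finset.sum_congr rfl fun i _ => N₁_eq hr (hka.ent i) (hka.ne i)
    beta_reduce
    rw [h5]
    refine le_trans h4 (mul_le_mul_of_nonneg_right (le_max_right _ _) ?_)
    have e1 : 0 ≤ ∑ i, N131.SR.Nb (k i) r := Finset.sum_nonneg fun i _ => N131.SR.Nb_nonneg hr
    have e2 : 0 ≤ ∑ j, ∑ α ∈ Finset.univ.finsuppAntidiag e,
        ValueDistribution.characteristic (a j α) ⊤ r :=
      Finset.sum_nonneg fun j _ => Finset.sum_nonneg fun α _ =>
        ValueDistribution.characteristic_nonneg hr
    have e3 : 0 ≤ ∑ i, ValueDistribution.characteristic (fun z => k i z / k 0 z) ⊤ r :=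
      Finset.sum_nonneg fun i _ => ValueDistribution.characteristic_nonneg hr
    have e4 := Real.log_nonneg (show 1 ≤
      1 + ∑ i, ValueDistribution.characteristic (fun z => k i z / k 0 z) ⊤ r by linarith)
    exact add_nonneg (add_nonneg e1 e2) e4

end Pool.Agent.Results.MP_b509a1_ag.SecondMainTheorem
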