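import Mathlib
import Pool.Agent.H60W.Hyp
import Pool.Agent.H60S.Pol
import Pool.Agent.H60S.Rat

/-!
# Entire curves in general hypersurfaces and the zeros of their Wronskians

Let `d ≥ 2 n + 2`. There is a constant `C` such that for a general hypersurface `X` of degree `d` in
the projective space of dimension `n + 1` all nonconstant entire curves `f` in `X` satisfy

`T_f(r) ≤ C N₁(W, r)`

outside a set of radii of finite measure. Here `W` is the Wronskian determinant of a basis of the
linear span of the coordinates of `f`, so that the zeros of `W` are the points at which `f` has an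
osculating space with a contact of too high an order (flexes); `N₁` counts each zero once. By the
first main theorem `N₁(W, r) ≤ (n + 2) T_f(r) + O(log r + log T_f(r))`, so `C` is a bound for the
mean multiplicity of the flexes as well. More generally, if `f = P(G)` with entire functions
`G_0, ..., G_M` and forms `P` of degree `e`, then `T_f(r) ≤ C (N₁(W, r) + log⁺ T_G(r))` for the
Wronskian `W` of `G`; here `C` depends only on `n`, `d`, `M`, `e`.

Proof. If the inequality fails for all `C`, there is a sequence of hypersurfaces `F_k` without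
punctured rational curves of degree at most `k`, and of curves `f_k` in `F_k = 0`, such that the
coordinates of `f_k` satisfy linear differential equations with coefficients whose characteristic is
`o(T_f)` (quotients of minors of the Wronskian matrix, by the lemma on the logarithmic derivative). In
the ultraproduct the curve gives a point of the limit hypersurface over a Picard-Vessiot extension of
the field of the small sequences, which is not algebraic over this field. So the limit
hypersurface, over the ultrapower of the complex numbers, contains a punctured rational curve, of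
some degree `D`, and then almost all hypersurfaces `F_k = 0` contain one of degree `D`, a contradiction.
General hypersurfaces of degree `d` contain no punctured rational curves of bounded degree
(Clemens, Ein, Voisin), and curves of logarithmic growth are rational; this removes the term `log r`.
-/

set_option autoImplicit false

namespace Pool.Agent.Results.MP_b509a1_ag.WronskianInequality

open MvPolynomial MeasureTheory

/-- The characteristic function of the curve with the homogeneous coordinates `g`, up to a constant: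
the mean of the logarithm of the maximum norm over the circle of the radius `r`. -/
noncomputable def T {N : ℕ} (g : ℂ → Fin N → ℂ) (r : ℝ) : ℝ :=
  Real.circleAverage (fun z => Real.log ‖g z‖) 0 r

/-- The counting function of the zeros of `h`; every zero is counted once. -/
noncomputable def N₁ (h : ℂ → ℂ) (r : ℝ) : ℝ :=
  ∑ᶠ z ∈ {z : ℂ | h z = 0 ∧ ‖z‖ ≤ r}, if z = 0 then Real.log r else Real.log (r / ‖z‖)

/-- The Wronskian determinant. -/
noncomputable def W {n : ℕ} (g : Fin n → ℂ → ℂ) (z : ℂ) : ℂ :=
  Matrix.det (Matrix.of fun i j : Fin n => iteratedDeriv i (g j) z)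

/-- `g` is a basis of the linear span of the entire functions `G k`. -/
structure Basis {m n : ℕ} (G : ℂ → Fin m → ℂ) (g : Fin n → ℂ → ℂ) : Prop where
  ind : LinearIndependent ℂ g
  span : Submodule.span ℂ (Set.range g) = Submodule.span ℂ (Set.range fun k z => G z k)

/-- `S r ≤ X r` for all `r ≥ 1` outside a set of finite measure. -/
def Outside (S X : ℝ → ℝ) : Prop :=
  ∃ E : Set ℝ, volume E < ⊤ ∧ ∀ r, 1 ≤ r → r ∉ E → S r ≤ X r

/-- `f` is a nonconstant entire curve in the hypersurface `F = 0` of the projective space. -/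
structure CurveIn {N : ℕ} (F : MvPolynomial (Fin N) ℂ) (f : ℂ → Fin N → ℂ) : Prop where
  hol : Differentiable ℂ f
  ne : ∀ z, f z ≠ 0
  on : ∀ z, eval (f z) F = 0
  nonconst : ¬ ∀ z, ∃ c : ℂ, f z = c • f 0

/-- `f = P(G)`, where the `G k` are entire and the `P j` are forms of degree `e > 0`. -/
structure Image {N M : ℕ} (e : ℕ) (P : Fin N → MvPolynomial (Fin (M + 1)) ℂ)
    (G : ℂ → Fin (M + 1) → ℂ) (f : ℂ → Fin N → ℂ) : Prop where
  pos : 0 < e
  hol : Differentiable ℂ G
  hom : ∀ j, (P j).IsHomogeneous e
  eq : ∀ z j, f z j = eval (G z) (P j)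

theorem N₁_eq {h : ℂ → ℂ} {r : ℝ} (hr : 1 ≤ r) (hfin : {z : ℂ | h z = 0 ∧ ‖z‖ ≤ r}.Finite) :
    N₁ h r = N131.SR.Nb h r := by
  classical
  have hF : ∀ z, z ∈ hfin.toFinset ↔ h z = 0 ∧ ‖z‖ ≤ r := fun z => by
    rw [Set.Finite.mem_toFinset]
    rfl
  rw [N131.SR.Nb_eq r hfin.toFinset hF]
  unfold N₁
  rw [finsum_mem_eq_finite_toFinset_sum _ hfin]
  have h1 : ∀ z ∈ hfin.toFinset, (if z = 0 then Real.log r else Real.log (r / ‖z‖)) =
      Real.log (r * ‖z‖⁻¹) + if z = 0 then Real.log r else 0 := by
    intro z _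
    by_cases h : z = 0
    · simp [h]
    · simp [h, div_eq_mul_inv]
  rw [Finset.sum_congr rfl h1, Finset.sum_add_distrib, Finset.sum_ite_eq']
  congr 1
  by_cases h0 : h 0 = 0
  · rw [if_pos ((hF 0).2 ⟨h0, by rw [norm_zero]; linarith⟩),
      Set.indicator_of_mem (show (0 : ℂ) ∈ {z : ℂ | h z = 0} from h0)]
    simp
  · rw [if_neg fun h2 => h0 ((hF 0).1 h2).1,
      Set.indicator_of_notMem (show (0 : ℂ) ∉ {z : ℂ | h z = 0} from h0)]
    simp

/-- the curve in the notation of the proof -/
theorem wr {N M n e : ℕ} (c : N131.SU.Crv M N n e) {r : ℝ} (hr : 1 ≤ r) :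
    N₁ (W c.g) r = N131.SR.Nb (N131.SR.Wr c.g) r := by
  obtain ⟨a, b, ha, hb, hgd, hW⟩ := c.D.data
  exact N₁_eq hr (N131.SR.zeros_finite (N131.SR.Wr_diff hgd) hW r)

/-- **Entire curves in general hypersurfaces have many flexes.** Let `d ≥ 2 n + 2`, and let `M`, `e` be
given. There are `C` and a polynomial `Φ` in the coefficients of the forms of degree `d` in `n + 2`
variables, which does not vanish at all forms of degree `d`, such that for all forms `F` of degree
`d` at which `Φ` does not vanish and all nonconstant entire curves `f` in the hypersurface `F = 0`: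

(1) `T_f(r) ≤ C N₁(W, r)` outside a set of finite measure, where `W` is the Wronskian of a basis of
the linear span of the coordinates of `f`;

(2) if `f = P(G)`, with entire functions `G_0, ..., G_M` and forms `P` of degree `e`, then
`T_f(r) ≤ C (N₁(W, r) + log⁺ T_G(r))` outside a set of finite measure, where `W` is the Wronskian
of a basis of the linear span of `G_0, ..., G_M`. -/
theorem result (n d : ℕ) (hd : 2 * n + 2 ≤ d) (M e : ℕ) :
    ∃ (Φ : MvPolynomial (Fin (n + 2) →₀ ℕ) ℂ) (C : ℝ),
      (∃ F₀ : MvPolynomial (Fin (n + 2)) ℂ, F₀.IsHomogeneous d ∧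
        eval (fun α => coeff α F₀) Φ ≠ 0) ∧
      ∀ F : MvPolynomial (Fin (n + 2)) ℂ, F.IsHomogeneous d → eval (fun α => coeff α F) Φ ≠ 0 →
        ∀ f : ℂ → Fin (n + 2) → ℂ, CurveIn F f →
          (∀ (k : ℕ) (g : Fin k → ℂ → ℂ), Basis f g →
            Outside (T f) fun r => C * N₁ (W g) r) ∧
          ∀ (P : Fin (n + 2) → MvPolynomial (Fin (M + 1)) ℂ) (G : ℂ → Fin (M + 1) → ℂ),
            Image e P G f → ∀ (k : ℕ) (g : Fin k → ℂ → ℂ), Basis G g →
              Outside (T f) fun r => C * (N₁ (W g) r + Real.posLog (T G r)) := by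
  have hRAT := Pool.Agent.H60S.t_RAT Pool.Agent.H60S.t_POL
  obtain ⟨B₁, C₁, hC₁, h1⟩ := Pool.Agent.H60W.hyp_wr hRAT (n + 1) d
  obtain ⟨B₂, C₂, hC₂, h2⟩ := Pool.Agent.H60W.hyp_bd hRAT (n + 1) d M e
  obtain ⟨Φ, hΦ, hΦ2⟩ := Pool.Agent.V1153.GH.gen_hyp (n := n + 1) (d := d) (by omega)
    (max B₁ B₂)
  refine ⟨Φ, max C₁ C₂, hΦ, fun F hF hFΦ f hf => ?_⟩
  have hno : ∀ B, B ≤ max B₁ B₂ → ∀ P, ¬ V1153.UG.GmBdd (Ideal.span {F}) 1 B P :=
    fun B hB P hP => hΦ2 F hF hFΦ P ⟨fun j => (hP.deg j).trans hB, hP.mem, hP.off, hP.nc⟩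
  have hfd : ∀ j, Differentiable ℂ fun z => f z j := fun j => differentiable_pi.1 hf.hol j
  have hf0 : ∀ z, ∃ j, f z j ≠ 0 := by
    intro z
    by_contra hcon
    push Not at hcon
    exact hf.ne z (funext hcon)
  have hnc : ∃ s t j k, f s j * f t k ≠ f s k * f t j := by
    by_contra hcon
    apply hf.nonconst
    intro z
    apply Pool.Agent.V1153.GH.prop_of hf.ne
    rintro ⟨s, t, j, k, hne⟩
    exact hcon ⟨s, t, j, k, hne⟩
  refine ⟨fun k g hg => ?_, fun P G hP k g hg => ?_⟩
  · obtain ⟨E, hE, hb⟩ := h1 F hF (hno B₁ (le_max_left _ _)) (fun j z => f z j) hfd hf0 hf.on hnc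
      k g hg.ind hg.span
    let c : N131.SU.Crv (n + 1) (n + 1) k 1 := ⟨fun j z => f z j, fun j => X j, g, ⟨hfd, one_pos,
      fun j => isHomogeneous_X _ _, fun z => by
        obtain ⟨j, hj⟩ := hf0 z
        refine ⟨j, ?_⟩
        change eval (fun k => f z k) (X j) ≠ 0
        rwa [eval_X], hg.ind, hg.span⟩⟩
    refine ⟨E, hE, fun r hr hrE => ?_⟩
    have h4 := hb r hr hrE
    have h5 : N₁ (W g) r = N131.SR.Nb (N131.SR.Wr g) r := wr c hr
    beta_reduce
    rw [h5]
    exact le_trans h4 (mul_le_mul_of_nonneg_right (le_max_left _ _) (N131.SR.Nb_nonneg hr))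
  · let c : N131.SU.Crv M (n + 1) k e := ⟨fun j z => G z j, P, g, ⟨fun j =>
      differentiable_pi.1 hP.hol j, hP.pos, hP.hom, fun z => by
        obtain ⟨j, hj⟩ := hf0 z
        refine ⟨j, ?_⟩
        change eval (fun k => G z k) (P j) ≠ 0
        have h3 := hP.eq z j
        rwa [h3] at hj, hg.ind, hg.span⟩⟩
    have hcf : c.f = fun j z => f z j := by
      funext j z
      exact (hP.eq z j).symm
    obtain ⟨E, hE, hb⟩ := h2 F hF (hno B₂ (le_max_right _ _)) k c (by rw [hcf]; exact hf.on)
      (by rw [hcf]; exact hnc)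
    refine ⟨E, hE, fun r hr hrE => ?_⟩
    have h4 := hb r hr hrE
    have h5 : N₁ (W g) r = N131.SR.Nb (N131.SR.Wr g) r := wr c hr
    rw [hcf] at h4
    beta_reduce
    rw [h5]
    exact le_trans h4 (mul_le_mul_of_nonneg_right (le_max_right _ _)
      (add_nonneg (N131.SR.Nb_nonneg hr) Real.posLog_nonneg))

end Pool.Agent.Results.MP_b509a1_ag.WronskianInequality
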